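import Pool.Agent.H242.GX.Fin4

/-!
# Every smooth oval has an exterior foliation with projective tangent involutions, (almost) uniformly

Definitions (points of the plane are complex numbers; `Pool/Agent/H242/GX/Stm.lean`, `OvalBody.lean`):

* `Oval K`: `K` is compact, strictly convex, with interior points, and its boundary is a `C^∞` closed simple curve `γ` with
  `γ' ≠ 0` and nowhere vanishing curvature;
* `IsExteriorFoliation K U Y`: `U` is an open neighbourhood of the curve `frontier K`, `Y` is `C^∞` on `U` without critical
  points, `Y ≥ 0` on `U \ interior K`, the curve is the level set `Y = 0` of `U \ interior K` and every nonempty level set of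
  `Y` in `U \ interior K` is the boundary of a compact convex set with interior points (a closed convex curve);
* `IsTangentDir K z v`: `v ≠ 0` and the line `z + ℝ v` does not meet `interior K`;
* `SigmaProjective U Y z v`: near `z` every leaf close to the curve meets the line `z + ℝ v` in exactly one point on each side
  of `z`, and the involution `σ` which exchanges these points coincides near `z` with a projective transformation;
* `conic q`: the zero set of the polynomial of degree at most two with the coefficients `q`.

Theorem. For EVERY oval and every point `z₀` of it there are `c > 0` and an exterior foliation such that for all points `z` of the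
curve the involution `σ_z` is projective, namely the point reflection of the tangent line in `z`, and more precisely: on the
segment `|t| ≤ c` of the tangent line (`c` does not depend on `z`) the function `Y` is strictly monotone on both sides of
`z`, and `σ_z` is the point reflection for `|t| < c |z - z₀|`, and for all `|t| ≤ c` if `z = z₀`. So on every closed arc of the
curve which does not contain the ONE point `z₀` the leaves are invariant under the outer billiard uniformly, and near
`z₀` the uniformity is lost only linearly. (Uniformity at all points, that is `|t| ≤ c` for all `z`, is the Birkhoff conjecture for outer
billiards near the curve.) There are ovals which are not contained in a conic (and in fact the ovals correspond to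
all smooth `2π`-periodic functions `p` with `p + p'' > 0`).

So the hypothesis of Q1 imposes no condition at all on a curve `γ` with nonvanishing curvature.

## Outline of the proof

In the normal coordinates `(φ, y)` (support function `p`, `ρ = p + p''`) the lines tangent to the curve form a web `X (θ, t)`.
(1) Formal part: there is a formal series `H = ∑ y^n u_n (φ)`, `u_1 = ρ^{1/3}`, which is even on all tangent lines; the periodicity of
the `u_n` is equivalent to the vanishing of the mean value of a function, and this follows from an exact identity between the areas
of the curve `t = T (θ)` in the two coordinate systems (area preservation of the outer billiard map), applied to the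
level curves of the approximate integral. Borel's lemma gives a smooth `H` whose odd part on the tangent lines is flat.
(2) The flat error is removed on the tangent line at `z₀` (angle `0`, say) by a direct correction, and on the tangent lines with angle in
`(0, 2π)` by solving the cohomological equation `g - g ∘ S = h` for the outer billiard map `S` by summation along the
orbits, which move monotonically towards `θ = 0`; in the logarithmic coordinate `log t` the map is `C^∞`-close to the
identity, so that the sum of the (flat) terms, over `O (1/t)` steps, is flat. The solution is cut off near the angle `0`,
in the region `|φ| < C √y`, which the tangent line with the angle `θ` meets only at `|t| ≥ c |θ|`.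
(3) The level sets are convex near the curve because the restriction of `Y` to the tangent lines has positive second
derivative.
-/

open Set
open Pool.Agent.H242.GX

namespace Pool.Agent.Results.MP_ae5b4e_an.EveryOval

/-- Every oval has, for every point `z₀` of it, an exterior foliation all of whose tangent involutions are point reflections, uniformly
for `|t| < c |z - z₀|`; and there are ovals which are not contained in a conic. -/
theorem result :
    (∀ K : Set ℂ, Oval K → ∀ z₀ ∈ frontier K, ∃ (U : Set ℂ) (Y : ℂ → ℝ) (c : ℝ), 0 < c ∧
      IsExteriorFoliation K U Y ∧
      ∀ z ∈ frontier K, ∀ v : ℂ, IsTangentDir K z v → SigmaProjective U Y z v ∧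
        (‖v‖ = 1 → (∀ t : ℝ, |t| ≤ c → z + t • v ∈ U) ∧
          StrictAntiOn (fun t : ℝ => Y (z + t • v)) (Icc (-c) 0) ∧
          StrictMonoOn (fun t : ℝ => Y (z + t • v)) (Icc 0 c) ∧
          ∀ t : ℝ, |t| ≤ c → (|t| < c * ‖z - z₀‖ ∨ z = z₀) → Y (z + t • v) = Y (z - t • v))) ∧
    (∃ K : Set ℂ, Oval K ∧ ∀ q : Fin 6 → ℝ, q ≠ 0 → ¬ frontier K ⊆ conic q) ∧
    ∀ p : ℝ → ℝ, Supp p → Oval (body p) ∧ frontier (body p) = range (gam p) :=
  ⟨fun K hK => main4 K hK, example_of t_KEY t_BODY t_NONC,
    fun p hp => ⟨oval_body t_KEY t_BODY hp, (t_BODY p hp).2.2.1⟩⟩

end Pool.Agent.Results.MP_ae5b4e_an.EveryOval
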