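import Pool.Agent.H242.GX.All5

/-!
# The exact class of the curves which satisfy the hypothesis of the question

Definitions (points of the plane are complex numbers; `Pool/Agent/H242/GX/Stm.lean`, `OvalBody.lean`):

* `IsTable K`: `K` is compact, strictly convex, with interior points, and its boundary is a `C^∞` closed simple curve `γ` with
  `γ' ≠ 0` (the setting of the page: a smooth closed strictly convex curve; the curvature may vanish at some points);
* `Oval K`: in addition the curvature of the boundary curve vanishes nowhere;
* `IsExteriorFoliation K U Y`: `U` is an open neighbourhood of the curve `frontier K`, `Y` is `C^∞` on `U` without critical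
  points, `Y ≥ 0` on `U \ interior K`, the curve is the level set `Y = 0` of `U \ interior K` and every nonempty level set of
  `Y` in `U \ interior K` is the boundary of a compact convex set with interior points (a closed convex curve);
* `IsTangentDir K z v`: `v ≠ 0` and the line `z + ℝ v` does not meet `interior K`;
* `SigmaProjective U Y z v`: near `z` every leaf close to the curve meets the line `z + ℝ v` in exactly one point on each side
  of `z`, and the involution `σ` which exchanges these points coincides near `z` with a projective transformation.

Theorem. For a smooth closed strictly convex curve the following are equivalent: (1) it has an exterior foliation all of whose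
involutions `σ_z` are projective; (2) it has an exterior foliation all of whose involutions `σ_z` are, near `z`, the point
reflections of the tangent lines; (3) its curvature vanishes nowhere. So the curves `γ` in the question of the page are exactly the ovals with
nonvanishing curvature, instead of the ellipses.

## Outline of the proof of `(1) → (3)` (for `(3) → (2)` see `EveryOval`)

At a zero of the curvature which is isolated from the right write the curve as a graph `y = g (x)`, `w = g''`, `w (0) = 0`, `w > 0` on `(0, δ)`, and
`Y = N (x, y - g (x))`. The restriction of `Y` to a tangent line is invariant under `s ↦ - s / (1 + k s)`; elimination of `k` from the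
conditions on the Taylor coefficients of order at most `5` gives a differential inequality
`|9 w² w''' - 30 w w' w'' + 20 w'³| ≤ M (|w² w''| + |w w'²| + |w² w'| + |w³|)`. For `w = y⁶`, `κ = 6 y'² - 2 y y''` it says `|κ'| ≤ M' (|κ| + y'² + y²)`. A
careful analysis of this inequality, with `y → 0`, shows that `y'` has a POSITIVE limit at `0`; in particular flat zeros are excluded and `w ~ c x⁶`, `g = g (0) + g' (0) x + x⁸ h (x)`,
`h (0) ≠ 0`. Then the rescaled functions converge to a multiple of `1 + 8 σ - (1 + σ)⁸`, which violates the condition on the Taylor coefficient of order `7`.
-/

open Set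
open Pool.Agent.H242.GX

namespace Pool.Agent.Results.MP_ae5b4e_an.ExactClass

/-- A smooth closed strictly convex curve has an exterior foliation with projective involutions if and only if it has one with point
reflections if and only if its curvature vanishes nowhere. -/
theorem result (K : Set ℂ) (hK : IsTable K) :
    ((∃ (U : Set ℂ) (Y : ℂ → ℝ), IsExteriorFoliation K U Y ∧
      ∀ z ∈ frontier K, ∀ v : ℂ, IsTangentDir K z v → SigmaProjective U Y z v) ↔ Oval K) ∧
    ((∃ (U : Set ℂ) (Y : ℂ → ℝ), IsExteriorFoliation K U Y ∧
      ∀ z ∈ frontier K, ∀ v : ℂ, IsTangentDir K z v → SigmaProjective U Y z v ∧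
        ∃ r : ℝ, 0 < r ∧ ∀ t : ℝ, |t| < r → Y (z + t • v) = Y (z - t • v)) ↔ Oval K) :=
  ⟨⟨fun ⟨U, Y, hF, hσ⟩ => t_NEC K hK U Y hF hσ, fun h => by
      obtain ⟨U, Y, hF, hσ⟩ := main_of t_SUPP t_FINAL K h
      exact ⟨U, Y, hF, fun z hz v hv => (hσ z hz v hv).1⟩⟩,
    ⟨fun ⟨U, Y, hF, hσ⟩ => t_NEC K hK U Y hF fun z hz v hv => (hσ z hz v hv).1,
      fun h => main_of t_SUPP t_FINAL K h⟩⟩

end Pool.Agent.Results.MP_ae5b4e_an.ExactClass
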