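import Pool.Agent.H242.GX.All6
import Pool.Agent.H242.GX.Fin6b

/-!
# The modulus of an exterior foliation with projective involutions; uniqueness to infinite order

Definitions (points of the plane are complex numbers; `Pool/Agent/H242/GX/Stm.lean`, `Fin6.lean`):

* `Supp p`: `p` is a `C^∞`, `2π`-periodic function with `p + p'' > 0`; `body p` is the convex body with the support function `p`
  in the direction `nu α = (sin α, -cos α)`, `gam p α` the point of its boundary with the outer normal `nu α`, `e α` the unit tangent vector there
  (every convex body whose boundary is smooth with nonvanishing curvature is of this form); `rho p = p + p''` is the radius of curvature and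
  `cr p` its cube root;
* `IsExteriorFoliation K U Y`: the foliation by closed convex curves (level sets of the `C^∞` function `Y` without critical
  points, defined on a neighbourhood `U` of the curve), `IsTangentDir K z v`: tangent lines, `SigmaProjective U Y z v`: the involution `σ_z`
  of the tangent line is projective near `z`;
* `slope p Y θ`: the derivative of `Y` in the direction of the outer normal at `gam p θ`;
* `Modulus p Y k`: `k` is smooth and `2π`-periodic, the involution at `gam p θ` is `t ↦ -t / (1 + k θ t)` near `0` in the arc length parameter `t` of
  the tangent line (and no other transformation `t ↦ -m t / (1 + c t)` with `m > 0` preserves `Y` near `0`), `slope p Y > 0`, and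
  `(log (ρ^{1/3} / slope))' = k ρ`, that is, `k` is the derivative of `log (ρ^{1/3} / slope)` with respect to the arc length of the curve.

Theorem. Let `Y₁`, `Y₂` be any two exterior foliations of the same oval all of whose tangent involutions are projective near the points of the curve.
Then both have a modulus, `k₁` and `k₂`; the integral of `k₁` over the curve vanishes; `k₁ = 0` (point reflections) if and only if the normal derivative of
`Y₁` on the curve is a constant multiple of the cube root of the radius of curvature; `k₁ = k₂` if and only if the normal derivatives of `Y₁` and `Y₂` on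
the curve are proportional; and if `k₁ = k₂`, then for every `N` there is a polynomial `f` with `|Y₂ - f (Y₁)| ≤ C dist (·, K) ^ N` outside
near the curve: the leaves of the two foliations agree to infinite order along the curve.

So an exterior foliation with projective involutions is determined to infinite order by the first order position of its leaves along the curve, which is
one positive function on the curve (up to a constant factor), and this function is determined by the germs of the involutions, and conversely. For point reflections, `k = 0`, the normal
derivative is a constant multiple of `ρ^{1/3}`: the leaves are to first order the affine parallel curves, and there is only one such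
foliation to infinite order (it exists for every oval: `EveryOval`).

Proof: a change of the parameter of the tangent lines turns the involutions into point reflections of the new parameter; then by induction on the
order, the leading coefficient `w (φ)` of `Y₂ - f (Y₁) = y^n w (φ) + ...` satisfies a homogeneous linear
differential equation of first order on the circle (the leading odd term on the tangent lines vanishes), which is also satisfied by
the `n`-th power of the leading coefficient of `Y₁`.
-/

open Set
open Pool.Agent.H242.GX

namespace Pool.Agent.Results.MP_ae5b4e_an.FormalUniqueness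

/-- Every exterior foliation of an oval with projective tangent involutions has a modulus; the modulus and the first order data determine each
other, and foliations with the same modulus agree to infinite order along the curve. -/
theorem result (p : ℝ → ℝ) (hp : Supp p) (U₁ U₂ : Set ℂ) (Y₁ Y₂ : ℂ → ℝ)
    (h₁ : IsExteriorFoliation (body p) U₁ Y₁) (h₂ : IsExteriorFoliation (body p) U₂ Y₂)
    (σ₁ : ∀ z ∈ frontier (body p), ∀ v : ℂ, IsTangentDir (body p) z v → SigmaProjective U₁ Y₁ z v)
    (σ₂ : ∀ z ∈ frontier (body p), ∀ v : ℂ, IsTangentDir (body p) z v → SigmaProjective U₂ Y₂ z v) :
    ∃ k₁ k₂ : ℝ → ℝ, Modulus p Y₁ k₁ ∧ Modulus p Y₂ k₂ ∧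
      ∫ θ in (0 : ℝ)..(2 * Real.pi), k₁ θ * rho p θ = 0 ∧
      ((∀ θ : ℝ, k₁ θ = 0) ↔ ∃ C : ℝ, 0 < C ∧ ∀ θ : ℝ, slope p Y₁ θ = C * cr p θ) ∧
      (k₁ = k₂ ↔ ∃ C : ℝ, 0 < C ∧ ∀ θ : ℝ, slope p Y₂ θ = C * slope p Y₁ θ) ∧
      (k₁ = k₂ → ∀ N : ℕ, ∃ (f : Polynomial ℝ) (C δ : ℝ), 0 < δ ∧
        ∀ z : ℂ, z ∉ interior (body p) → Metric.infDist z (body p) < δ →
          z ∈ U₁ ∧ z ∈ U₂ ∧ |Y₂ z - f.eval (Y₁ z)| ≤ C * Metric.infDist z (body p) ^ N) := by
  obtain ⟨k₁, k₂, h3, h4, h5, h6, h7⟩ :=
    main6 t_WEB t_BODY t_SIG0 t_PULLP t_KAPPA t_ODE t_NOR t_UNP p hp U₁ U₂ Y₁ Y₂ h₁ h₂ σ₁ σ₂
  exact ⟨k₁, k₂, h3, h4, h5, modulus_zero hp h3, h6, h7⟩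

end Pool.Agent.Results.MP_ae5b4e_an.FormalUniqueness
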