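import Pool.Agent.H242.GX.All4

/-!
# Mirror symmetric ovals: exterior foliations with projective involutions and arbitrary first order behaviour

Definitions (points of the plane are complex numbers; `Pool/Agent/H242/GX/Stm.lean`, `Stm2.lean`, `OvalBody.lean`):

* `Supp p`: `p` is a `C^∞`, `2π`-periodic function with `p + p'' > 0`; `body p` is the convex body with the support function `p`
  in the direction `nu α = (sin α, -cos α)`, `gam p α` the point of its boundary with the outer normal `nu α`;
* `PP κ`: `κ` is `C^∞` and `2π`-periodic; `EP u`: `u` is `C^∞`, even and `2π`-periodic; `e θ = (cos θ, sin θ)`, the tangent direction at `gam p θ`;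
* `Oval K`: `K` is compact, strictly convex, its boundary is a `C^∞` closed simple curve with nonzero velocity and curvature;
* `IsExteriorFoliation K U Y`, `IsTangentDir K z v`, `SigmaProjective U Y z v`: the foliation by closed convex curves (level sets of
  the `C^∞` function `Y` without critical points), the tangent lines, and the projectivity of the involution `σ_z` near `z`.

Theorem. Let `p` be even (the curve has a mirror symmetry), let `u` be ANY positive smooth even periodic function and let `gam p θ₀` be any point of
the curve. There are `c > 0` and an exterior foliation `Y` all of whose involutions `σ_z` are projective near `z`, such that the normal derivative of `Y` at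
`gam p θ` is `u θ`, and at `z = gam p θ` the involution is `t ↦ - t / (1 + κ θ t)`, `κ` smooth, uniformly: for all `|t| ≤ c` with `|t| < c |z - gam p θ₀|`, and for all
`|t| ≤ c` at `z = gam p θ₀`. So already the first order behaviour of the leaves near the curve is arbitrary (up to the symmetry). For the
circle, the functions `u` of the foliations by conics of a pencil are the reciprocals of trigonometric polynomials of degree at most
two, so for the other `u` the leaves are not close to conics, not even to first order.

## Outline of the proof

The condition `σ (t) = - t / (1 + κ θ t)` becomes the evenness in the parameter `τ`, `t = τ / (1 - κ θ τ / 2)`. The web of the tangent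
lines in this parameter is again mirror symmetric if `κ` is odd, and `κ` is determined by `u` (first order condition). Then a formal
solution exists because the mean values which obstruct the periodicity of the coefficients are integrals of odd functions. The
passage from the formal solution to an actual foliation is as in `EveryOval` (Borel's lemma, and a flat correction by summation
along the orbits of the exterior billiard map belonging to the involutions).
-/

open Set
open Pool.Agent.H242.GX

namespace Pool.Agent.Results.MP_ae5b4e_an.MirrorSymmetric

/-- For every mirror symmetric oval and every positive smooth even function `u` there is an exterior foliation with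
all involutions projective, uniformly up to one point, and with normal derivative `u` on the curve. -/
theorem result (p : ℝ → ℝ) (hp : Supp p) (heven : ∀ α, p (-α) = p α) :
    Oval (body p) ∧ frontier (body p) = range (gam p) ∧
    ∀ u : ℝ → ℝ, EP u → (∀ φ, 0 < u φ) → ∀ θ₀ : ℝ,
      ∃ (U : Set ℂ) (Y : ℂ → ℝ) (κ : ℝ → ℝ) (c : ℝ), 0 < c ∧ PP κ ∧
        IsExteriorFoliation (body p) U Y ∧
        (∀ z ∈ frontier (body p), ∀ v : ℂ, IsTangentDir (body p) z v → SigmaProjective U Y z v) ∧
        (∀ θ : ℝ, fderiv ℝ Y (gam p θ) (nu θ) = u θ) ∧
        (∀ θ : ℝ, (∀ t : ℝ, |t| ≤ 2 * c → gam p θ + t • e θ ∈ U) ∧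
          StrictAntiOn (fun t : ℝ => Y (gam p θ + t • e θ)) (Icc (-(2 * c)) 0) ∧
          StrictMonoOn (fun t : ℝ => Y (gam p θ + t • e θ)) (Icc 0 (2 * c))) ∧
        ∀ θ t : ℝ, |t| ≤ c → 1 / 2 < 1 + κ θ * t ∧
          ((|t| < c * ‖gam p θ - gam p θ₀‖ ∨ gam p θ = gam p θ₀) →
            Y (gam p θ + (-t / (1 + κ θ * t)) • e θ) = Y (gam p θ + t • e θ)) :=
  ⟨oval_body t_KEY t_BODY hp, (t_BODY p hp).2.2.1,
    fun u hu hpos θ₀ => t_FOLM p hp heven u hu hpos θ₀⟩

end Pool.Agent.Results.MP_ae5b4e_an.MirrorSymmetric
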